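import Pool.Agent.W811.Fib.Main

/-!
# The dimension of the tridiagonal Fibonacci spectrum has corners

For the tridiagonal Fibonacci Hamiltonians with parameters `(p, q)`, the Hausdorff dimension of
the spectrum is not a real-analytic function along all analytic curves avoiding `(1, 0)`: for
arbitrarily large `p` the function `q ↦ dim (spectrum)` is not even differentiable at `q = 0`.
-/

set_option autoImplicit false

namespace Pool.Agent.Results.MP_47b204_mp.DimensionCorner

open Set Filter Topology Pool.Agent.W811.Fib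
open Pool.Agent.Helper434.PSCplx (L2)

/-- the `n`-th iterate of the left shift -/
def shift (n : ℕ) (x : ℤ → Letter) : ℤ → Letter := fun k => x (k + (n : ℤ))

/-- the hull: all the limits of `T^{n_i} x` with `n_i` increasing to infinity, for the product
topology -/
def hull (x : ℤ → Letter) : Set (ℤ → Letter) :=
  {ω | ∃ n : ℕ → ℕ, StrictMono n ∧ Tendsto (fun i => shift (n i) x) atTop (𝓝 ω)}

section general

variable {X : Type} [NormedAddCommGroup X] [NormedSpace ℂ X]

/-- the real spectrum of a bounded operator -/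
def spec (H : X →L[ℂ] X) : Set ℝ := {E : ℝ | (E : ℂ) ∈ spectrum ℂ H}

/-- the Hausdorff dimension of the real spectrum -/
noncomputable def dimSpec (H : X →L[ℂ] X) : ℝ := (dimH (spec H)).toReal

/-- for arbitrarily large `p` the function `q ↦ dim (spectrum of H p q)` is not differentiable
at `q = 0` -/
def Corners (H : ℝ → ℝ → (X →L[ℂ] X)) : Prop :=
  ∀ P : ℝ, ∃ p, P < p ∧ ¬ DifferentiableAt ℝ (fun q => dimSpec (H p q)) 0

/-- the negated form of Q1: there is a real-analytic curve `α` on an open interval, with values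
in `ℝ² ∖ {(1, 0)}` and with nonvanishing first coordinate, along which the dimension of the
spectrum is not real-analytic at some parameter value -/
def QFails (H : ℝ → ℝ → (X →L[ℂ] X)) : Prop :=
  ∃ (a b : ℝ) (α : ℝ → ℝ × ℝ), AnalyticOnNhd ℝ α (Ioo a b) ∧
    (∀ t ∈ Ioo a b, (α t).1 ≠ 0 ∧ α t ≠ (1, 0)) ∧
    ∃ t ∈ Ioo a b, ¬ AnalyticAt ℝ (fun s => dimSpec (H (α s).1 (α s).2)) t

end general

/-- the value of a vector of `ℓ²(ℤ)` at a site; here `L2` is `lp (fun _ : ℤ => ℂ) 2` -/
noncomputable def amp (φ : L2) (n : ℤ) : ℂ := φ n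

/-- `H p q` is the tridiagonal Fibonacci Hamiltonian of `ω` with parameters `(p, q)` -/
def IsHam (ω : ℤ → Letter) (H : ℝ → ℝ → (L2 →L[ℂ] L2)) : Prop :=
  ∀ (p q : ℝ) (φ : L2) (n : ℤ), amp (H p q φ) n =
    (pc p (ω n) : ℂ) * amp φ (n - 1) + (pc p (ω (n + 1)) : ℂ) * amp φ (n + 1) +
      (qc q (ω n) : ℂ) * amp φ n

lemma IsHam.isOp {ω : ℤ → Letter} {H : ℝ → ℝ → (L2 →L[ℂ] L2)} (h : IsHam ω H) (p q : ℝ) :
    IsOp p q ω (H p q) := fun φ n => h p q φ n

instance : Finite Letter := by
  have : Set.univ = ({Letter.a, Letter.b} : Set Letter) := by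
    ext c
    cases c <;> simp
  exact Set.finite_univ_iff.1 (this ▸ Set.toFinite _)

lemma hull_nonempty (x : ℤ → Letter) : (hull x).Nonempty := by
  obtain ⟨ω, φ, hφ, hlim⟩ := CompactSpace.tendsto_subseq (fun n : ℕ => shift n x)
  exact ⟨ω, φ, hφ, hlim⟩

lemma inHull_of_mem {u : ℕ → Letter} {x : ℤ → Letter} (hx : ∀ n : ℕ, x n = u n)
    {ω : ℤ → Letter} (hω : ω ∈ hull x) : InHull u ω := by
  obtain ⟨n, hn, hlim⟩ := hω
  intro m N
  have h1 : ∀ k : ℤ, ∀ᶠ i in atTop, x (k + (n i : ℤ)) = ω k := by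
    intro k
    have h2 : Tendsto (fun i => shift (n i) x k) atTop (𝓝 (ω k)) :=
      ((continuous_apply k).tendsto ω).comp hlim
    rw [nhds_discrete, tendsto_pure] at h2
    exact h2
  have h3 : ∀ᶠ i in atTop, ∀ t ∈ Finset.range N, x (m + (t : ℤ) + (n i : ℤ)) = ω (m + (t : ℤ)) := by
    rw [Finset.eventually_all]
    intro t _
    exact h1 _
  have h4 : ∀ᶠ i in atTop, m.natAbs ≤ n i :=
    (hn.tendsto_atTop).eventually_ge_atTop _
  obtain ⟨i, hi, hi2⟩ := (h3.and h4).exists
  refine ⟨(m + (n i : ℤ)).toNat, ?_⟩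
  intro t ht
  rw [← hi t (Finset.mem_range.2 ht), ← hx]
  congr 1
  push_cast
  rw [Int.toNat_of_nonneg (by omega)]
  ring

/-- **Full negative answer to Q1.**  The fixed point `u` of the Fibonacci substitution, the
operators and the hull exist; and for every element `ω` of the hull of a two-sided extension of
`u`, with `H p q` the tridiagonal Fibonacci Hamiltonian of `ω`:

* there are arbitrarily large `p` for which `q ↦ dim (spectrum of H p q)` is not differentiable
  at `q = 0`;
* there is a real-analytic curve `α`, with values in `ℝ² ∖ {(1, 0)}` and with nonvanishing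
  first coordinate, along which the dimension of the spectrum is not real-analytic at some
  parameter value. -/
theorem result :
    (∃ u : ℕ → Letter, IsFix u) ∧ (∀ x : ℤ → Letter, (hull x).Nonempty) ∧
    (∀ ω : ℤ → Letter, ∃ H, IsHam ω H ∧ ∀ p q, IsSelfAdjoint (H p q)) ∧
    ∀ u : ℕ → Letter, IsFix u → ∀ x : ℤ → Letter, (∀ n : ℕ, x n = u n) →
      ∀ ω ∈ hull x, ∀ H, IsHam ω H → Corners H ∧ QFails H := by
  refine ⟨⟨fibWord, isFix_fibWord⟩, hull_nonempty, ?_, ?_⟩
  · intro ω
    choose H h1 h2 using fun p q => exists_op p q ω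
    exact ⟨H, fun p q φ n => h1 p q φ n, h2⟩
  intro u hu x hx ω hω H hH'
  have hH : ∀ p q, IsOp p q ω (H p q) := fun p q => hH'.isOp p q
  have hin := inHull_of_mem hx hω
  -- the dimension near `q = 0`
  have key : ∀ p, 1000 < p → (fun q => dimSpec (H p q)) =ᶠ[𝓝 0] fun q => DD p q := by
    intro p hp
    have hball : Metric.ball (0 : ℝ) 1 ∈ 𝓝 (0 : ℝ) := Metric.ball_mem_nhds _ one_pos
    filter_upwards [hball] with q hq
    rw [Metric.mem_ball, Real.dist_eq, sub_zero] at hq
    obtain ⟨lp, rp, lm, rm, lo, ro, hc⟩ := exists_clus hp.le hq.le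
    unfold dimSpec spec DD dr
    rw [spectrum_eq hp.le hc hu hin (hH p q), Sp_eq hp.le hc]
  have corner : ∀ P : ℝ, ∃ p, P < p ∧ 1000 < p ∧
      ¬ DifferentiableAt ℝ (fun q => dimSpec (H p q)) 0 := by
    intro P
    obtain ⟨p, hp, hp2, hd⟩ := exists_corner P
    refine ⟨p, hp, hp2, ?_⟩
    intro h
    exact hd (h.congr_of_eventuallyEq (key p hp2).symm)
  refine ⟨?_, ?_⟩
  · intro P
    obtain ⟨p, hp, _, hd⟩ := corner P
    exact ⟨p, hp, hd⟩
  · obtain ⟨p, -, hp2, hd⟩ := corner 0
    refine ⟨-1, 1, fun t => (p, t), ?_, ?_, 0, by norm_num, ?_⟩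
    · intro t _
      exact AnalyticAt.prod analyticAt_const analyticAt_id
    · intro t _
      refine ⟨by simp only; linarith, ?_⟩
      intro h
      have := congrArg Prod.fst h
      simp only at this
      linarith
    · intro h
      exact hd h.differentiableAt

end Pool.Agent.Results.MP_47b204_mp.DimensionCorner
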